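import Pool.Agent.Lib_MP_a95293_rc.OmB

/-!
# MP_a95293_nt, tuples with any number of terms: the count for fixed exponents

An admissible `n`-tuple with radical `R = R' p` is determined by the prime-to-`p` parts, the
exponents of `p` and a root `p` of a nonzero polynomial.
-/

set_option autoImplicit false

namespace Pool.MP_a95293_nt.AT

open Finset Polynomial

/-- the radical of an integer -/
def radZ (m : ℤ) : ℕ := ∏ p ∈ m.natAbs.primeFactors, p

/-- admissible `n`-tuples -/
def Adm {n : ℕ} (x : Fin n → ℤ) : Prop :=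
  Finset.univ.gcd x = 1 ∧ ∑ i, x i = 0 ∧ ∀ S : Finset (Fin n), S.Nonempty → S ≠ univ → ∑ i ∈ S, x i ≠ 0

/-- the polynomial of the data -/
noncomputable def pol {n : ℕ} (a : Fin n → ℤ) (e : Fin n → ℕ) : ℤ[X] := ∑ j, C (a j) * X ^ e j

theorem pol_coeff {n : ℕ} (a : Fin n → ℤ) (e : Fin n → ℕ) (k : ℕ) :
    (pol a e).coeff k = ∑ j ∈ univ.filter (fun j => e j = k), a j := by
  unfold pol
  rw [finsetSum_coeff, sum_filter]
  refine sum_congr rfl fun j _ => ?_
  rw [coeff_C_mul, coeff_X_pow]
  by_cases h : e j = k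
  · rw [if_pos h, if_pos h.symm, mul_one]
  · rw [if_neg h, if_neg (fun h' => h h'.symm), mul_zero]

theorem pol_natDegree {n : ℕ} (a : Fin n → ℤ) (e : Fin n → ℕ) {L : ℕ} (h : ∀ j, e j ≤ L) :
    (pol a e).natDegree ≤ L := by
  unfold pol
  apply natDegree_sum_le_of_forall_le
  intro j _
  exact (natDegree_C_mul_X_pow_le _ _).trans (h j)

/-- `v_q(x) ≤ L` if `|x| < 2^(L+1)` -/
theorem fact_le {x : ℤ} (hx : x ≠ 0) {L : ℕ} (h : |x| < 2 ^ (L + 1)) {q : ℕ} (hq : q.Prime) :
    x.natAbs.factorization q ≤ L := by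
  by_contra hc
  push Not at hc
  have h1 : q ^ (L + 1) ∣ x.natAbs :=
    (hq.pow_dvd_iff_le_factorization (Int.natAbs_ne_zero.2 hx)).2 hc
  have h2 := Nat.le_of_dvd (Int.natAbs_pos.2 hx) h1
  have h3 : 2 ^ (L + 1) ≤ q ^ (L + 1) := Nat.pow_le_pow_left hq.two_le _
  have h4 : (x.natAbs : ℤ) < 2 ^ (L + 1) := by
    rw [← Int.abs_eq_natAbs]
    exact h
  have h5 : x.natAbs < 2 ^ (L + 1) := by exact_mod_cast h4
  omega

/-- the data of a tuple at a prime `p` -/
theorem data {n : ℕ} {x : Fin n → ℤ} (hx : Adm x) {R p L : ℕ} (hp : p.Prime) (hpR : p ∣ R)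
    (hR : Squarefree R) (hrad : radZ (∏ i, x i) = R) (hL : ∀ j, |x j| < 2 ^ (L + 1)) :
    ∃ (a : Fin n → ℤ) (e : Fin n → ℕ), (∀ j, (a j).natAbs ∣ (R / p) ^ L) ∧ (∀ j, a j ≠ 0) ∧
      (∀ j, e j ≤ L) ∧ pol a e ≠ 0 ∧ (pol a e).eval (p : ℤ) = 0 := by
  classical
  obtain ⟨hgcd, hsum, hne⟩ := hx
  have hprod : (∏ i, x i).natAbs.primeFactors = R.primeFactors := by
    rw [← hrad]
    unfold radZ
    exact (Nat.primeFactors_prod fun q hq => Nat.prime_of_mem_primeFactors hq).symm
  have hn : (univ : Finset (Fin n)).Nonempty := by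
    by_contra hc
    rw [not_nonempty_iff_eq_empty] at hc
    have h1 : (1 : ℤ) = 0 := by rw [← hgcd, hc, gcd_empty]
    exact one_ne_zero h1
  have hx0 : ∀ j, x j ≠ 0 := by
    intro j hj
    by_cases h : ({j} : Finset (Fin n)) = univ
    · rw [← h, gcd_singleton, hj, normalize_zero] at hgcd
      exact zero_ne_one hgcd
    · have := hne {j} (singleton_nonempty _) h
      rw [sum_singleton] at this
      exact this hj
  have hP0 : (∏ i, x i) ≠ 0 := prod_ne_zero_iff.2 fun j _ => hx0 j
  have hR0 : R ≠ 0 := hR.ne_zero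
  have hpf : ∀ j, ∀ q ∈ (x j).natAbs.primeFactors, q ∈ R.primeFactors := by
    intro j q hq
    rw [← hprod]
    refine Nat.primeFactors_mono ?_ (Int.natAbs_ne_zero.2 hP0) hq
    rw [Int.natAbs_dvd_natAbs]
    exact dvd_prod_of_mem _ (mem_univ j)
  -- the decomposition
  have hdec : ∀ j, ∃ c : ℤ, x j = c * (p : ℤ) ^ ((x j).natAbs.factorization p) ∧ ¬ (p : ℤ) ∣ c := by
    intro j
    have h1 : p ^ ((x j).natAbs.factorization p) ∣ (x j).natAbs := Nat.ordProj_dvd _ _
    have h2 : ((p : ℤ) ^ ((x j).natAbs.factorization p)) ∣ x j := by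
      have h3 : ((p ^ ((x j).natAbs.factorization p) : ℕ) : ℤ) ∣ x j := Int.natCast_dvd.2 h1
      push_cast at h3
      exact h3
    obtain ⟨c, hc⟩ := h2
    refine ⟨c, by rw [mul_comm]; exact hc, ?_⟩
    rintro ⟨d, rfl⟩
    have h4 : (p : ℤ) ^ ((x j).natAbs.factorization p + 1) ∣ x j := by
      refine ⟨d, ?_⟩
      rw [pow_succ, mul_assoc]
      exact hc
    have h5 : p ^ ((x j).natAbs.factorization p + 1) ∣ (x j).natAbs := by
      have h6 : ((p ^ ((x j).natAbs.factorization p + 1) : ℕ) : ℤ) ∣ x j := by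
        push_cast
        exact h4
      exact Int.natCast_dvd.1 h6
    have h7 := (hp.pow_dvd_iff_le_factorization (Int.natAbs_ne_zero.2 (hx0 j))).1 h5
    omega
  choose a ha1 ha2 using hdec
  have ha0 : ∀ j, a j ≠ 0 := by
    intro j hj
    have := ha1 j
    rw [hj, zero_mul] at this
    exact hx0 j this
  refine ⟨a, fun j => (x j).natAbs.factorization p, ?_, ha0, fun j => fact_le (hx0 j) (hL j) hp, ?_, ?_⟩
  · intro j
    have hdvd : (a j).natAbs ∣ (x j).natAbs := by
      rw [Int.natAbs_dvd_natAbs]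
      exact ⟨_, ha1 j⟩
    have hRp : R / p ≠ 0 := by
      have := Nat.div_mul_cancel hpR
      intro h
      rw [h, zero_mul] at this
      exact hR0 this.symm
    rw [← Nat.factorization_le_iff_dvd (Int.natAbs_ne_zero.2 (ha0 j)) (pow_ne_zero _ hRp)]
    intro q
    by_cases hq : q ∈ (a j).natAbs.primeFactors
    · have hqp := Nat.prime_of_mem_primeFactors hq
      have hqd := Nat.dvd_of_mem_primeFactors hq
      have hqx : q ∣ (x j).natAbs := hqd.trans hdvd
      have hqR := hpf j q (Nat.mem_primeFactors.2 ⟨hqp, hqx, Int.natAbs_ne_zero.2 (hx0 j)⟩)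
      have hqR' := Nat.dvd_of_mem_primeFactors hqR
      have hqne : q ≠ p := by
        rintro rfl
        exact ha2 j (Int.natCast_dvd.2 hqd)
      have hqRp : q ∣ R / p := by
        have h1 : q ∣ (R / p) * p := by rw [Nat.div_mul_cancel hpR]; exact hqR'
        rcases (Nat.Prime.dvd_mul hqp).1 h1 with h | h
        · exact h
        · exact absurd ((Nat.prime_dvd_prime_iff_eq hqp hp).1 h) hqne
      have h1 : 1 ≤ (R / p).factorization q :=
        (hqp.dvd_iff_one_le_factorization hRp).1 hqRp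
      have h2 : (a j).natAbs.factorization q ≤ L := by
        have h3 := (Nat.factorization_le_iff_dvd (Int.natAbs_ne_zero.2 (ha0 j))
          (Int.natAbs_ne_zero.2 (hx0 j))).2 hdvd q
        exact h3.trans (fact_le (hx0 j) (hL j) hqp)
      rw [Nat.factorization_pow, Finsupp.smul_apply, smul_eq_mul]
      calc (a j).natAbs.factorization q ≤ L * 1 := by rw [mul_one]; exact h2
        _ ≤ L * (R / p).factorization q := Nat.mul_le_mul_left _ h1
    · rw [← Nat.support_factorization, Finsupp.notMem_support_iff] at hq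
      rw [hq]
      exact Nat.zero_le _
  · intro hF
    -- all blocks of equal exponents have sum zero
    obtain ⟨j₀, _⟩ := hn
    have hblock : ∑ j ∈ univ.filter (fun j => (x j).natAbs.factorization p =
        (x j₀).natAbs.factorization p), x j = 0 := by
      have h1 := pol_coeff a (fun j => (x j).natAbs.factorization p) ((x j₀).natAbs.factorization p)
      rw [hF, coeff_zero] at h1
      calc ∑ j ∈ univ.filter (fun j => (x j).natAbs.factorization p =
            (x j₀).natAbs.factorization p), x j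
          = ∑ j ∈ univ.filter (fun j => (x j).natAbs.factorization p =
            (x j₀).natAbs.factorization p), a j * (p : ℤ) ^ ((x j₀).natAbs.factorization p) := by
            refine sum_congr rfl fun j hj => ?_
            rw [mem_filter] at hj
            rw [← hj.2]
            exact ha1 j
        _ = 0 := by rw [← sum_mul, ← h1, zero_mul]
    have hall : univ.filter (fun j => (x j).natAbs.factorization p =
        (x j₀).natAbs.factorization p) = univ := by
      by_contra hcon
      exact hne (univ.filter (fun j => (x j).natAbs.factorization p =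
        (x j₀).natAbs.factorization p)) ⟨j₀, mem_filter.2 ⟨mem_univ _, rfl⟩⟩ hcon hblock
    have heq : ∀ j, (x j).natAbs.factorization p = (x j₀).natAbs.factorization p := by
      intro j
      have : j ∈ univ.filter (fun j => (x j).natAbs.factorization p =
        (x j₀).natAbs.factorization p) := by rw [hall]; exact mem_univ j
      exact (mem_filter.1 this).2
    have hpP : p ∣ (∏ i, x i).natAbs := by
      have h1 : p ∈ (∏ i, x i).natAbs.primeFactors := by
        rw [hprod]
        exact Nat.mem_primeFactors.2 ⟨hp, hpR, hR0⟩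
      exact Nat.dvd_of_mem_primeFactors h1
    have hpP' : (p : ℤ) ∣ ∏ i, x i := Int.natCast_dvd.2 hpP
    obtain ⟨j₁, _, hj₁⟩ := (Prime.dvd_finsetProd_iff (Nat.prime_iff_prime_int.1 hp) _).1 hpP'
    have h1 : 1 ≤ (x j₁).natAbs.factorization p :=
      (hp.dvd_iff_one_le_factorization (Int.natAbs_ne_zero.2 (hx0 j₁))).1 (Int.natCast_dvd.1 hj₁)
    have h2 : (p : ℤ) ∣ 1 := by
      rw [← hgcd]
      apply Finset.dvd_gcd
      intro j _
      rw [Int.natCast_dvd]
      refine (hp.dvd_iff_one_le_factorization (Int.natAbs_ne_zero.2 (hx0 j))).2 ?_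
      rw [heq j, ← heq j₁]
      exact h1
    exact (Nat.prime_iff_prime_int.1 hp).not_isUnit (isUnit_of_dvd_one h2)
  · unfold pol
    rw [eval_finsetSum]
    calc ∑ j, (C (a j) * X ^ ((x j).natAbs.factorization p)).eval (p : ℤ) = ∑ j, x j := by
          refine sum_congr rfl fun j _ => ?_
          rw [eval_mul, eval_C, eval_pow, eval_X]
          exact (ha1 j).symm
      _ = 0 := hsum

end Pool.MP_a95293_nt.AT
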