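import Pool.Agent.Lib_MP_a95293_at.Base

/-!
# The number of radicals of admissible tuples with a large prime factor and few prime factors
-/

set_option autoImplicit false

namespace Pool.MP_a95293_nt.AT

open Finset Polynomial

/-- the possible prime-to-`p` parts -/
def Dv (m L : ℕ) : Finset ℤ := (m ^ L).divisors.image (fun d : ℕ => (d : ℤ)) ∪
  (m ^ L).divisors.image (fun d : ℕ => -(d : ℤ))

theorem card_divisors_pow {m : ℕ} (hm : Squarefree m) (L : ℕ) :
    (m ^ L).divisors.card = (L + 1) ^ m.primeFactors.card := by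
  rcases Nat.eq_zero_or_pos L with rfl | hL
  · simp
  rw [Nat.card_divisors (pow_ne_zero _ hm.ne_zero), Nat.primeFactors_pow _ hL.ne', ← prod_const]
  refine prod_congr rfl fun q hq => ?_
  rw [Nat.factorization_pow, Finsupp.smul_apply, smul_eq_mul]
  have h1 := hm.natFactorization_le_one q
  have h2 := (Nat.prime_of_mem_primeFactors hq).dvd_iff_one_le_factorization hm.ne_zero
  have h3 := h2.1 (Nat.dvd_of_mem_primeFactors hq)
  have h4 : m.factorization q = 1 := le_antisymm h1 h3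
  rw [h4, mul_one]

theorem card_Dv {m : ℕ} (hm : Squarefree m) (L w : ℕ) (hw : m.primeFactors.card ≤ w) :
    (Dv m L).card ≤ 2 * (L + 1) ^ w := by
  unfold Dv
  refine (card_union_le _ _).trans ?_
  have h1 := card_divisors_pow hm L
  have h2 : (m ^ L).divisors.card ≤ (L + 1) ^ w := by
    rw [h1]
    exact Nat.pow_le_pow_right (Nat.succ_pos _) hw
  have h3 : ((m ^ L).divisors.image (fun d : ℕ => (d : ℤ))).card ≤ (m ^ L).divisors.card := card_image_le
  have h4 : ((m ^ L).divisors.image (fun d : ℕ => -(d : ℤ))).card ≤ (m ^ L).divisors.card := card_image_le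
  omega

theorem mem_Dv {m L : ℕ} (hm : m ≠ 0) {a : ℤ} (h : a.natAbs ∣ m ^ L) : a ∈ Dv m L := by
  unfold Dv
  rw [mem_union, mem_image, mem_image]
  have h1 : a.natAbs ∈ (m ^ L).divisors := Nat.mem_divisors.2 ⟨h, pow_ne_zero _ hm⟩
  rcases Int.natAbs_eq a with h2 | h2
  · exact Or.inl ⟨_, h1, h2.symm⟩
  · exact Or.inr ⟨_, h1, h2.symm⟩

/-- the radicals `R ≤ X` with at most `w` primes, one of them at least `P`, of admissible tuples
with entries below `2 ^ (L + 1)` -/
noncomputable def Rset (n X P w L : ℕ) : Finset ℕ := by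
  classical
  exact (Icc 1 X).filter fun R => Squarefree R ∧ R.primeFactors.card ≤ w ∧
    (∃ p, p.Prime ∧ p ∣ R ∧ P ≤ p) ∧
    ∃ x : Fin n → ℤ, Adm x ∧ radZ (∏ i, x i) = R ∧ ∀ j, |x j| < 2 ^ (L + 1)

theorem card_Rset (n X P w L : ℕ) (hP : 1 ≤ P) :
    (Rset n X P w L).card ≤ L * ((X / P) * ((2 * (L + 1) ^ w) ^ n * (L + 1) ^ n)) := by
  classical
  have hdat : ∀ R : ℕ, ∃ (p : ℕ) (a : Fin n → ℤ) (e : Fin n → ℕ), R ∈ Rset n X P w L →
      (p.Prime ∧ p ∣ R ∧ P ≤ p ∧ (∀ j, (a j).natAbs ∣ (R / p) ^ L) ∧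
      (∀ j, e j ≤ L) ∧ pol a e ≠ 0 ∧ (pol a e).eval (p : ℤ) = 0) := by
    intro R
    by_cases hR : R ∈ Rset n X P w L
    · have hR' := hR
      unfold Rset at hR'
      rw [mem_filter] at hR'
      obtain ⟨_, hsq, _, ⟨p, hp, hpR, hPp⟩, x, hx, hrad, hL⟩ := hR'
      obtain ⟨a, e, h1, _, h3, h4, h5⟩ := data hx hp hpR hsq hrad hL
      exact ⟨p, a, e, fun _ => ⟨hp, hpR, hPp, h1, h3, h4, h5⟩⟩
    · exact ⟨0, 0, 0, fun h => absurd h hR⟩
  choose p a e hd using hdat
  set key : ℕ → ℕ × (Fin n → ℤ) × (Fin n → ℕ) := fun R => (R / p R, a R, e R) with hkey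
  set T : Finset (ℕ × (Fin n → ℤ) × (Fin n → ℕ)) :=
    ((Icc 1 (X / P)).filter fun m => Squarefree m ∧ m.primeFactors.card ≤ w).biUnion fun m =>
      ({m} : Finset ℕ) ×ˢ (Fintype.piFinset (fun _ : Fin n => Dv m L) ×ˢ
        Fintype.piFinset (fun _ : Fin n => range (L + 1))) with hT
  have hfib : ∀ κ, ((Rset n X P w L).filter fun R => key R = κ).card ≤ L := by
    rintro ⟨m, b, f⟩
    rcases ((Rset n X P w L).filter fun R => key R = (m, b, f)).eq_empty_or_nonempty with he | ⟨R₀, hR₀⟩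
    · rw [he, card_empty]
      exact Nat.zero_le _
    · have hmem : ∀ R ∈ (Rset n X P w L).filter fun R => key R = (m, b, f),
          R = m * p R ∧ pol b f ≠ 0 ∧ (pol b f).eval (p R : ℤ) = 0 ∧ ∀ j, f j ≤ L := by
        intro R hR
        rw [mem_filter] at hR
        obtain ⟨hR1, hR2⟩ := hR
        obtain ⟨hp, hpR, _, _, h3, h4, h5⟩ := hd R hR1
        simp only [hkey, Prod.mk.injEq] at hR2
        obtain ⟨e1, e2, e3⟩ := hR2
        rw [e2, e3] at h4 h5
        rw [e3] at h3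
        exact ⟨by rw [← e1, Nat.div_mul_cancel hpR], h4, h5, h3⟩
      have hF := (hmem R₀ hR₀).2.1
      have hfL := (hmem R₀ hR₀).2.2.2
      have h1 : ((Rset n X P w L).filter fun R => key R = (m, b, f)).card ≤
          (pol b f).roots.toFinset.card := by
        refine card_le_card_of_injOn (fun R => (p R : ℤ)) ?_ ?_
        · intro R hR
          obtain ⟨_, _, h3, _⟩ := hmem R (mem_coe.1 hR)
          rw [mem_coe, Multiset.mem_toFinset, mem_roots hF]
          exact h3
        · intro R hR R' hR' h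
          obtain ⟨h2, _⟩ := hmem R (mem_coe.1 hR)
          obtain ⟨h3, _⟩ := hmem R' (mem_coe.1 hR')
          have h' : (p R : ℤ) = (p R' : ℤ) := h
          have h4 : p R = p R' := by exact_mod_cast h'
          rw [h2, h3, h4]
      refine h1.trans ((Multiset.toFinset_card_le _).trans ((card_roots' _).trans ?_))
      exact pol_natDegree b f hfL
  have himg : (Rset n X P w L).image key ⊆ T := by
    intro κ hκ
    rw [mem_image] at hκ
    obtain ⟨R, hR, rfl⟩ := hκ
    obtain ⟨hp, hpR, hPp, h1, h3, _, _⟩ := hd R hR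
    unfold Rset at hR
    rw [mem_filter, mem_Icc] at hR
    obtain ⟨⟨hR1, hRX⟩, hsq, hw, _⟩ := hR
    have hdvd : R / p R ∣ R := Nat.div_dvd_of_dvd hpR
    have hsq' : Squarefree (R / p R) := hsq.squarefree_of_dvd hdvd
    have hne : R / p R ≠ 0 := hsq'.ne_zero
    rw [hT, mem_biUnion]
    refine ⟨R / p R, ?_, ?_⟩
    · rw [mem_filter, mem_Icc]
      refine ⟨⟨Nat.pos_of_ne_zero hne, ?_⟩, hsq', ?_⟩
      · exact (Nat.div_le_div_right hRX).trans (Nat.div_le_div_left hPp hP)
      · exact (card_le_card (Nat.primeFactors_mono hdvd (by omega))).trans hw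
    · simp only [hkey, mem_product, mem_singleton, Fintype.mem_piFinset, mem_range, true_and]
      exact ⟨fun j => mem_Dv hne (h1 j), fun j => Nat.lt_succ_of_le (h3 j)⟩
  have hTc : T.card ≤ (X / P) * ((2 * (L + 1) ^ w) ^ n * (L + 1) ^ n) := by
    rw [hT]
    refine card_biUnion_le.trans ?_
    refine (sum_le_card_nsmul _ _ ((2 * (L + 1) ^ w) ^ n * (L + 1) ^ n) ?_).trans ?_
    · intro m hm
      rw [mem_filter] at hm
      rw [card_product, card_singleton, one_mul, card_product, Fintype.card_piFinset_const,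
        Fintype.card_piFinset_const, card_range]
      apply Nat.mul_le_mul_right
      exact Nat.pow_le_pow_left (card_Dv hm.2.1 L w hm.2.2) _
    · rw [smul_eq_mul]
      apply Nat.mul_le_mul_right
      refine (card_filter_le _ _).trans ?_
      rw [Nat.card_Icc, Nat.add_sub_cancel]
  calc (Rset n X P w L).card ≤ L * ((Rset n X P w L).image key).card :=
        card_le_mul_card_image _ _ fun κ _ => hfib κ
    _ ≤ L * T.card := Nat.mul_le_mul_left _ (card_le_card himg)
    _ ≤ _ := Nat.mul_le_mul_left _ hTc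

/-- the radicals `R ≤ X` of admissible tuples with entries below `2 ^ (L + 1)` -/
noncomputable def Aset (n X L : ℕ) : Finset ℕ := by
  classical
  exact (Icc 1 X).filter fun R =>
    ∃ x : Fin n → ℤ, Adm x ∧ radZ (∏ i, x i) = R ∧ ∀ j, |x j| < 2 ^ (L + 1)

theorem radZ_squarefree (m : ℤ) : Squarefree (radZ m) := by
  unfold radZ
  apply Finset.squarefree_prod_of_pairwise_isCoprime
  · intro p hp q hq hpq
    exact Nat.coprime_iff_isRelPrime.1 ((Nat.coprime_primes (Nat.prime_of_mem_primeFactors hp)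
      (Nat.prime_of_mem_primeFactors hq)).2 hpq)
  · intro p hp
    exact (Nat.prime_of_mem_primeFactors hp).prime.squarefree

theorem card_omega (X w : ℕ) (hX : 1 ≤ X) :
    (((Icc 1 X).filter fun R => Squarefree R ∧ w < R.primeFactors.card).card : ℝ) ≤
      X * (1 + Real.log X) ^ 8 / 8 ^ w := by
  have h1 := Pool.MP_a95293_nt.RC.sum_pow 8 X hX
  rw [le_div_iff₀ (by positivity)]
  refine le_trans ?_ h1
  rw [← nsmul_eq_mul, ← sum_const]
  refine (sum_le_sum (g := fun R => (((8 : ℕ) : ℝ)) ^ R.primeFactors.card) fun R hR => ?_).trans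
    (sum_le_sum_of_subset_of_nonneg ?_ fun _ _ _ => by positivity)
  · rw [mem_filter] at hR
    push_cast
    exact pow_le_pow_right₀ (by norm_num) hR.2.2.le
  · intro R hR
    rw [mem_filter] at hR ⊢
    exact ⟨hR.1, hR.2.1⟩

theorem card_Aset (n X P w L : ℕ) (hP : 1 ≤ P) (hX : 1 ≤ X) :
    ((Aset n X L).card : ℝ) ≤ (P : ℝ) ^ w + X * (1 + Real.log X) ^ 8 / 8 ^ w +
      L * ((X : ℝ) / P * ((2 * (L + 1) ^ w) ^ n * (L + 1) ^ n)) := by
  classical
  have hcov : Aset n X L ⊆ (Icc 1 (P ^ w) ∪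
      (Icc 1 X).filter fun R => Squarefree R ∧ w < R.primeFactors.card) ∪ Rset n X P w L := by
    intro R hR
    unfold Aset at hR
    rw [mem_filter, mem_Icc] at hR
    obtain ⟨⟨h1, h2⟩, x, hx, hrad, hL⟩ := hR
    have hsq : Squarefree R := hrad ▸ radZ_squarefree _
    rw [mem_union, mem_union, mem_filter, mem_Icc, mem_Icc]
    by_cases hw : w < R.primeFactors.card
    · exact Or.inl (Or.inr ⟨⟨h1, h2⟩, hsq, hw⟩)
    by_cases hp : ∃ p, p.Prime ∧ p ∣ R ∧ P ≤ p
    · right
      unfold Rset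
      rw [mem_filter, mem_Icc]
      exact ⟨⟨h1, h2⟩, hsq, not_lt.1 hw, hp, x, hx, hrad, hL⟩
    · left
      left
      refine ⟨h1, ?_⟩
      push Not at hp
      calc R = ∏ p ∈ R.primeFactors, p := (Nat.prod_primeFactors_of_squarefree hsq).symm
        _ ≤ ∏ p ∈ R.primeFactors, P := prod_le_prod' fun p hp' =>
            (hp p (Nat.prime_of_mem_primeFactors hp') (Nat.dvd_of_mem_primeFactors hp')).le
        _ = P ^ R.primeFactors.card := prod_const _
        _ ≤ P ^ w := Nat.pow_le_pow_right hP (not_lt.1 hw)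
  have h1 := (card_le_card hcov).trans ((card_union_le _ _).trans
    (Nat.add_le_add_right (card_union_le _ _) _))
  rw [Nat.card_Icc, Nat.add_sub_cancel] at h1
  have h2 := card_Rset n X P w L hP
  have h3 := card_omega X w hX
  have h4 : ((Aset n X L).card : ℝ) ≤ (P : ℝ) ^ w +
      ((Icc 1 X).filter fun R => Squarefree R ∧ w < R.primeFactors.card).card +
      (Rset n X P w L).card := by exact_mod_cast h1
  have h5 : ((Rset n X P w L).card : ℝ) ≤
      L * (((X / P : ℕ) : ℝ) * ((2 * (L + 1) ^ w) ^ n * (L + 1) ^ n)) := by exact_mod_cast h2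
  have h6 : ((X / P : ℕ) : ℝ) ≤ (X : ℝ) / P := Nat.cast_div_le
  have h7 : (L : ℝ) * (((X / P : ℕ) : ℝ) * ((2 * (L + 1) ^ w) ^ n * (L + 1) ^ n)) ≤
      L * ((X : ℝ) / P * ((2 * (L + 1) ^ w) ^ n * (L + 1) ^ n)) := by gcongr
  linarith

end Pool.MP_a95293_nt.AT
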