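import Pool.Agent.Lib_MP_a95293_at.Count

/-!
# The choice of the parameters
-/

set_option autoImplicit false

namespace Pool.MP_a95293_nt.AT

open Finset

/-- the bound for the exponents -/
noncomputable def Lf (X : ℕ) : ℕ :=
  ⌈Real.exp (2 * Real.log X / Real.log (Real.log X) ^ 3) / Real.log 2⌉₊

theorem Lf_le (X : ℕ) (h : 0 ≤ 2 * Real.log X / Real.log (Real.log X) ^ 3) :
    ((Lf X : ℝ) + 1) ≤ Real.exp (2 * Real.log X / Real.log (Real.log X) ^ 3 + 2) := by
  have hl : 0 < Real.log 2 := Real.log_pos (by norm_num)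
  have hl2 : 0.69 < Real.log 2 := by have := Real.log_two_gt_d9; linarith
  set g := 2 * Real.log X / Real.log (Real.log X) ^ 3 with hg
  have h0 : 1 ≤ Real.exp g := Real.one_le_exp h
  have h1 : (Lf X : ℝ) < Real.exp g / Real.log 2 + 1 := by
    unfold Lf
    rw [← hg]
    exact Nat.ceil_lt_add_one (by positivity)
  have h2 : Real.exp g / Real.log 2 ≤ 2 * Real.exp g := by
    rw [div_le_iff₀ hl]
    nlinarith
  have h3 : (4 : ℝ) ≤ Real.exp 2 := by
    have := Real.add_one_le_exp (1 : ℝ)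
    have h4 : Real.exp 2 = Real.exp 1 * Real.exp 1 := by rw [← Real.exp_add]; norm_num
    rw [h4]
    nlinarith
  rw [Real.exp_add]
  nlinarith

theorem lt_Lf {X r : ℕ} (hy : 10 ≤ Real.log (Real.log X)) (h1 : Real.log X / 2 ≤ Real.log r)
    (h2 : Real.log r ≤ Real.log X) {x : ℤ}
    (hx : ((|x| : ℤ) : ℝ) ≤ Real.exp (Real.exp (Real.log r / Real.log (Real.log r) ^ 3))) :
    |x| < 2 ^ (Lf X + 1) := by
  have hl : 0 < Real.log 2 := Real.log_pos (by norm_num)
  set Λ := Real.log X with hΛ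
  set y := Real.log Λ with hy'
  have hΛ0 : 0 < Λ := by
    by_contra hc
    push Not at hc
    have : Real.log Λ ≤ 0 ∨ True := Or.inr trivial
    have h3 : 0 ≤ Real.log (X : ℝ) := Real.log_natCast_nonneg X
    have h4 : Λ = 0 := le_antisymm hc h3
    rw [h4, Real.log_zero] at hy'
    linarith
  have hu : y - 1 ≤ Real.log (Real.log r) := by
    have h3 : Real.log (Λ / 2) ≤ Real.log (Real.log r) := Real.log_le_log (by positivity) h1
    rw [Real.log_div hΛ0.ne' (by norm_num)] at h3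
    have h4 : Real.log 2 ≤ 1 := by have := Real.log_two_lt_d9; linarith
    linarith
  have hu3 : y ^ 3 / 2 ≤ Real.log (Real.log r) ^ 3 := by
    have h3 : 9 / 10 * y ≤ Real.log (Real.log r) := by linarith
    have h4 : (9 / 10 * y) ^ 3 ≤ Real.log (Real.log r) ^ 3 := pow_le_pow_left₀ (by linarith) h3 3
    have h5 : (9 / 10 * y) ^ 3 = 729 / 1000 * y ^ 3 := by ring
    have h6 : 0 < y ^ 3 := by positivity
    linarith
  have hg : Real.log r / Real.log (Real.log r) ^ 3 ≤ 2 * Λ / y ^ 3 := by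
    have h6 : 0 < y ^ 3 := by positivity
    calc Real.log r / Real.log (Real.log r) ^ 3 ≤ Λ / (y ^ 3 / 2) := by
          apply div_le_div₀ hΛ0.le h2 (by positivity) hu3
      _ = 2 * Λ / y ^ 3 := by field_simp
  have h7 : Real.exp (2 * Λ / y ^ 3) ≤ Lf X * Real.log 2 := by
    rw [← div_le_iff₀ hl]
    unfold Lf
    rw [← hΛ, ← hy']
    exact Nat.le_ceil _
  have h8 : Real.exp (Real.exp (Real.log r / Real.log (Real.log r) ^ 3)) ≤ 2 ^ (Lf X) := by
    have h9 : (2 : ℝ) ^ (Lf X) = Real.exp (Lf X * Real.log 2) := by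
      rw [Real.exp_nat_mul, Real.exp_log (by norm_num)]
    rw [h9]
    exact Real.exp_le_exp.2 ((Real.exp_le_exp.2 hg).trans h7)
  have h10 : ((|x| : ℤ) : ℝ) < 2 ^ (Lf X + 1) := by
    refine (hx.trans h8).trans_lt ?_
    exact pow_lt_pow_right₀ (by norm_num) (Nat.lt_succ_self _)
  exact_mod_cast h10

theorem card_block (n X : ℕ) (hX : 1 ≤ X) (hy : 448 * ((n : ℝ) + 1) ≤ Real.log (Real.log X)) :
    ((Aset n X (Lf X)).card : ℝ) ≤ 265 * X / Real.log X ^ 2 := by
  set Λ := Real.log X with hΛ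
  set y := Real.log Λ with hy'
  have hn0 : (0 : ℝ) ≤ n := Nat.cast_nonneg n
  have hy0 : 448 ≤ y := by linarith
  have hΛ1 : 0 < Λ := by
    by_contra hc
    push Not at hc
    have h3 : 0 ≤ Real.log (X : ℝ) := Real.log_natCast_nonneg X
    have h4 : Λ = 0 := le_antisymm hc h3
    rw [h4, Real.log_zero] at hy'
    linarith
  have hexpy : Real.exp y = Λ := by rw [hy', Real.exp_log hΛ1]
  have hΛy : 2 * y ^ 3 ≤ Λ := by
    have h1 := Real.pow_div_factorial_le_exp y (by linarith) 4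
    rw [hexpy] at h1
    have h2 : ((4 : ℕ).factorial : ℝ) = 24 := by norm_num [Nat.factorial]
    rw [h2] at h1
    have h3 : 0 < y ^ 3 := by positivity
    have h4 : y ^ 4 / 24 = y ^ 3 * (y / 24) := by ring
    rw [h4] at h1
    nlinarith
  have hΛ2 : 1 ≤ Λ := by
    have h3 : (448 : ℝ) ^ 3 ≤ y ^ 3 := pow_le_pow_left₀ (by norm_num) hy0 3
    linarith
  have hX0 : (0 : ℝ) < X := by exact_mod_cast hX
  have hexpΛ : Real.exp Λ = X := by rw [hΛ, Real.exp_log hX0]
  -- w
  set w := ⌈6 * y⌉₊ with hw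
  have hw1 : 6 * y ≤ w := Nat.le_ceil _
  have hw2 : (w : ℝ) ≤ 7 * y := by
    have := Nat.ceil_lt_add_one (show 0 ≤ 6 * y by linarith)
    linarith
  have hw0 : (0 : ℝ) < w := by linarith
  -- P
  set P := ⌊Real.exp (Λ / (2 * w))⌋₊ with hP
  have hPy : 2 * y ≤ Λ / (2 * w) := by
    rw [le_div_iff₀ (by positivity)]
    have h3 : 2 * y * (2 * w) ≤ 28 * y ^ 2 := by nlinarith
    have h4 : 28 * y ^ 2 ≤ 2 * y ^ 3 := by
      have h5 : y ^ 3 = y ^ 2 * y := by ring
      rw [h5]
      nlinarith [sq_nonneg y]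
    linarith
  have hP1 : (P : ℝ) ≤ Real.exp (Λ / (2 * w)) := Nat.floor_le (Real.exp_pos _).le
  have hP2 : Real.exp (Λ / (2 * w)) / 2 ≤ P := by
    have h3 := Nat.lt_floor_add_one (Real.exp (Λ / (2 * w)))
    rw [← hP] at h3
    have h4 := Real.add_one_le_exp (Λ / (2 * w))
    linarith
  have hP0 : (0 : ℝ) < P := lt_of_lt_of_le (by positivity) hP2
  have hP0' : 1 ≤ P := by
    have : 0 < P := by exact_mod_cast hP0
    omega
  have hc := card_Aset n X P w (Lf X) hP0' hX
  refine hc.trans ?_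
  -- the first term
  have hA : (P : ℝ) ^ w ≤ 8 * X / Λ ^ 2 := by
    have h1 : (P : ℝ) ^ w ≤ Real.exp (Λ / 2) := by
      calc (P : ℝ) ^ w ≤ (Real.exp (Λ / (2 * w))) ^ w := pow_le_pow_left₀ hP0.le hP1 w
        _ = Real.exp (Λ / 2) := by
          rw [← Real.exp_nat_mul]
          congr 1
          field_simp
    refine h1.trans ?_
    rw [le_div_iff₀ (by positivity)]
    have h2 := Real.pow_div_factorial_le_exp (Λ / 2) (by linarith) 2
    have h3 : ((2 : ℕ).factorial : ℝ) = 2 := by norm_num [Nat.factorial]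
    rw [h3] at h2
    have h4 : Λ ^ 2 ≤ 8 * Real.exp (Λ / 2) := by
      have h5 : (Λ / 2) ^ 2 / 2 = Λ ^ 2 / 8 := by ring
      rw [h5] at h2
      linarith
    have h5 : (X : ℝ) = Real.exp (Λ / 2) * Real.exp (Λ / 2) := by
      rw [← Real.exp_add, ← hexpΛ]
      congr 1
      ring
    rw [h5]
    have h6 := mul_le_mul_of_nonneg_left h4 (Real.exp_pos (Λ / 2)).le
    linarith
  -- the second term
  have hB : (X : ℝ) * (1 + Λ) ^ 8 / 8 ^ w ≤ 256 * X / Λ ^ 2 := by
    have h1 : Λ ^ 12 ≤ (8 : ℝ) ^ w := by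
      have h2 : (2 : ℝ) ≤ Real.log 8 := by
        have h3 : Real.log 8 = 3 * Real.log 2 := by
          rw [show (8 : ℝ) = 2 ^ 3 by norm_num, Real.log_pow]
          norm_num
        have := Real.log_two_gt_d9
        rw [h3]
        linarith
      have h3 : (8 : ℝ) ^ w = Real.exp (w * Real.log 8) := by
        rw [Real.exp_nat_mul, Real.exp_log (by norm_num)]
      have h4 : Λ ^ 12 = Real.exp (12 * y) := by
        rw [← hexpy, ← Real.exp_nat_mul]
        norm_num
      rw [h3, h4]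
      apply Real.exp_le_exp.2
      nlinarith
    have h2 : (1 + Λ) ^ 8 ≤ 256 * Λ ^ 8 := by
      calc (1 + Λ) ^ 8 ≤ (2 * Λ) ^ 8 := pow_le_pow_left₀ (by linarith) (by linarith) 8
        _ = 256 * Λ ^ 8 := by ring
    have h3 : Λ ^ 8 * Λ ^ 2 ≤ (8 : ℝ) ^ w := by
      refine le_trans ?_ h1
      rw [← pow_add]
      exact pow_le_pow_right₀ hΛ2 (by norm_num)
    rw [div_le_div_iff₀ (by positivity) (by positivity)]
    calc (X : ℝ) * (1 + Λ) ^ 8 * Λ ^ 2 ≤ X * (256 * Λ ^ 8) * Λ ^ 2 := by gcongr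
      _ = 256 * X * (Λ ^ 8 * Λ ^ 2) := by ring
      _ ≤ 256 * X * 8 ^ w := by gcongr
  -- the third term
  have hC : (Lf X : ℝ) * ((X : ℝ) / P * ((2 * ((Lf X : ℝ) + 1) ^ w) ^ n * ((Lf X : ℝ) + 1) ^ n)) ≤
      1 * X / Λ ^ 2 := by
    set g := 2 * Λ / y ^ 3 with hg
    have hg0 : 0 ≤ g := by positivity
    have hL := Lf_le X hg0
    rw [← hΛ, ← hy', ← hg] at hL
    have hL1 : (Lf X : ℝ) ≤ Real.exp (g + 2) := by linarith
    have h1 : (Lf X : ℝ) * ((X : ℝ) / P * ((2 * ((Lf X : ℝ) + 1) ^ w) ^ n * ((Lf X : ℝ) + 1) ^ n)) ≤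
        Real.exp (g + 2) * ((X : ℝ) / (Real.exp (Λ / (2 * w)) / 2) *
          ((2 * (Real.exp (g + 2)) ^ w) ^ n * (Real.exp (g + 2)) ^ n)) := by
      gcongr
    refine h1.trans ?_
    have h2 : Real.exp (g + 2) * ((X : ℝ) / (Real.exp (Λ / (2 * w)) / 2) *
          ((2 * (Real.exp (g + 2)) ^ w) ^ n * (Real.exp (g + 2)) ^ n)) =
        X * (2 ^ (n + 1) * Real.exp ((g + 2) * (n * (w + 1) + 1)) * Real.exp (-(Λ / (2 * w)))) := by
      have h3 : Real.exp ((g + 2) * (n * (w + 1) + 1)) =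
          (Real.exp (g + 2) ^ w) ^ n * Real.exp (g + 2) ^ n * Real.exp (g + 2) := by
        rw [← pow_mul, ← pow_add, ← pow_succ, ← Real.exp_nat_mul]
        congr 1
        push_cast
        ring
      rw [h3, Real.exp_neg, mul_pow, pow_succ]
      field_simp
    rw [h2]
    have h3 : (2 : ℝ) ^ (n + 1) ≤ Real.exp (n + 1) := by
      have h4 := Real.add_one_le_exp (1 : ℝ)
      have h5 : Real.exp ((n : ℝ) + 1) = Real.exp 1 ^ (n + 1) := by
        rw [← Real.exp_nat_mul]
        push_cast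
        rw [mul_one]
      rw [h5]
      exact pow_le_pow_left₀ (by norm_num) (by linarith) _
    have h4 : (g + 2) * (n * (w + 1) + 1) + (n + 1) + 2 * y ≤ Λ / (2 * w) := by
      have hN : (1 : ℝ) ≤ n + 1 := by linarith
      set N : ℝ := n + 1 with hNdef
      have h5 : (n : ℝ) * (w + 1) + 1 ≤ 8 * N * y := by
        have h6 : (n : ℝ) * (w + 1) + 1 ≤ N * (w + 1) := by
          rw [hNdef]
          nlinarith
        have h7 : (w : ℝ) + 1 ≤ 8 * y := by linarith
        calc (n : ℝ) * (w + 1) + 1 ≤ N * (w + 1) := h6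
          _ ≤ N * (8 * y) := mul_le_mul_of_nonneg_left h7 (by linarith)
          _ = 8 * N * y := by ring
      have h6 : (g + 2) * (n * (w + 1) + 1) ≤ (g + 2) * (8 * N * y) :=
        mul_le_mul_of_nonneg_left h5 (by linarith)
      have h7 : Λ / (14 * y) ≤ Λ / (2 * w) := by
        apply div_le_div_of_nonneg_left hΛ1.le (by positivity)
        linarith
      refine le_trans ?_ h7
      have h8 : (g + 2) * (8 * N * y) = 16 * N * Λ / y ^ 2 + 16 * N * y := by
        rw [hg]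
        field_simp
        ring
      have h9 : 16 * N * Λ / y ^ 2 ≤ Λ / (28 * y) := by
        rw [div_le_div_iff₀ (by positivity) (by positivity)]
        have h10 : 16 * N * Λ * (28 * y) = (448 * N) * (Λ * y) := by ring
        have h11 : Λ * y ^ 2 = y * (Λ * y) := by ring
        rw [h10, h11]
        exact mul_le_mul_of_nonneg_right hy (by positivity)
      have h10 : 16 * N * y + N + 2 * y ≤ Λ / (28 * y) := by
        rw [le_div_iff₀ (by positivity)]
        have h11 : 16 * N * y + N + 2 * y ≤ 19 * N * y := by nlinarith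
        have h12 : (16 * N * y + N + 2 * y) * (28 * y) ≤ (19 * N * y) * (28 * y) :=
          mul_le_mul_of_nonneg_right h11 (by positivity)
        have h13 : (19 * N * y) * (28 * y) = 532 / 448 * (448 * N) * y ^ 2 := by ring
        have h14 : 532 / 448 * (448 * N) * y ^ 2 ≤ 532 / 448 * y * y ^ 2 := by gcongr
        have h15 : 532 / 448 * y * y ^ 2 ≤ 2 * y ^ 3 := by
          have : 0 < y ^ 3 := by positivity
          nlinarith
        linarith
      have h11 : Λ / (28 * y) + Λ / (28 * y) = Λ / (14 * y) := by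
        field_simp
        ring
      linarith
    calc (X : ℝ) * (2 ^ (n + 1) * Real.exp ((g + 2) * (n * (w + 1) + 1)) * Real.exp (-(Λ / (2 * w))))
        ≤ X * (Real.exp (n + 1) * Real.exp ((g + 2) * (n * (w + 1) + 1)) *
          Real.exp (-(Λ / (2 * w)))) := by gcongr
      _ = X * Real.exp ((n + 1) + (g + 2) * (n * (w + 1) + 1) + -(Λ / (2 * w))) := by
          rw [Real.exp_add (((n : ℝ) + 1) + (g + 2) * (n * (w + 1) + 1)) (-(Λ / (2 * w))),
            Real.exp_add ((n : ℝ) + 1) ((g + 2) * (n * (w + 1) + 1))]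
      _ ≤ X * Real.exp (-(2 * y)) := by
          apply mul_le_mul_of_nonneg_left _ hX0.le
          apply Real.exp_le_exp.2
          linarith
      _ = 1 * X / Λ ^ 2 := by
          rw [Real.exp_neg, one_mul, div_eq_mul_inv]
          congr 2
          rw [← hexpy, ← Real.exp_nat_mul]
          norm_num
  have hsum : 265 * (X : ℝ) / Λ ^ 2 = 8 * X / Λ ^ 2 + 256 * X / Λ ^ 2 + 1 * X / Λ ^ 2 := by ring
  rw [hsum]
  exact add_le_add (add_le_add hA hB) hC

end Pool.MP_a95293_nt.AT
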