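import Pool.Agent.Lib_MP_a95293_at.Par

/-!
# The sum of the reciprocals of the radicals of the tuples of moderate height
-/

set_option autoImplicit false

namespace Pool.MP_a95293_nt.AT

open Finset

/-- the height -/
noncomputable def hgt (r : ℕ) : ℝ := Real.exp (Real.exp (Real.log r / Real.log (Real.log r) ^ 3))

/-- the radicals of the admissible `n`-tuples of height at most `hgt` -/
def Good (n r : ℕ) : Prop :=
  ∃ x : Fin n → ℤ, Adm x ∧ radZ (∏ i, x i) = r ∧ ∀ j, ((|x j| : ℤ) : ℝ) ≤ hgt r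

theorem Good_pos {n r : ℕ} (h : Good n r) : 1 ≤ r := by
  obtain ⟨x, _, hr, _⟩ := h
  rw [← hr]
  exact Nat.one_le_iff_ne_zero.2 (radZ_squarefree _).ne_zero

theorem exists_block (n : ℕ) : ∃ j₀ : ℕ, 1 ≤ j₀ ∧ ∀ j, j₀ ≤ j →
    448 * ((n : ℝ) + 1) ≤ Real.log (Real.log ((2 ^ (j + 1) : ℕ) : ℝ)) := by
  have hl : 0 < Real.log 2 := Real.log_pos (by norm_num)
  have h1 : Filter.Tendsto (fun j : ℕ => Real.log (((j : ℝ) + 1) * Real.log 2)) Filter.atTop
      Filter.atTop := by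
    apply Real.tendsto_log_atTop.comp
    apply Filter.Tendsto.atTop_mul_const hl
    exact Filter.tendsto_atTop_add_const_right _ _ tendsto_natCast_atTop_atTop
  obtain ⟨j₁, hj₁⟩ := Filter.eventually_atTop.1 (h1.eventually_ge_atTop (448 * ((n : ℝ) + 1)))
  refine ⟨max j₁ 1, le_max_right _ _, fun j hj => ?_⟩
  have h2 := hj₁ j (le_trans (le_max_left _ _) hj)
  push_cast
  rw [Real.log_pow]
  push_cast
  exact h2

private theorem sum_blocks : Summable fun j : ℕ => 530 / (((j : ℝ) + 1) * Real.log 2) ^ 2 := by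
  have hl : 0 < Real.log 2 := Real.log_pos (by norm_num)
  have hs : Summable fun j : ℕ => 1 / (((j + 1 : ℕ) : ℝ)) ^ 2 :=
    (summable_nat_add_iff 1).2 (Real.summable_one_div_nat_pow.2 (by norm_num))
  refine (hs.mul_left (530 / (Real.log 2) ^ 2)).congr fun j => ?_
  push_cast
  field_simp

theorem summable_good (n : ℕ) : Summable fun r : {r : ℕ // Good n r} => 1 / ((r : ℕ) : ℝ) := by
  classical
  obtain ⟨j₀, hj0, h⟩ := exists_block n
  set b : ℕ → ℝ := fun j => (if j < j₀ then (2 : ℝ) else 0) + 530 / (((j : ℝ) + 1) * Real.log 2) ^ 2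
    with hb
  have hb0 : ∀ j, 0 ≤ b j := by
    intro j
    simp only [hb]
    split_ifs <;> positivity
  have hbs : Summable b := by
    apply Summable.add _ sum_blocks
    apply summable_of_ne_finset_zero (s := range j₀)
    intro j hj
    rw [mem_range] at hj
    rw [if_neg hj]
  apply summable_of_sum_le (c := ∑' j, b j) (fun z => by positivity)
  intro u
  have hfib : ∑ j ∈ u.image (fun z : {r : ℕ // Good n r} => Nat.log 2 (z : ℕ)),
      ∑ z ∈ u.filter (fun z : {r : ℕ // Good n r} => Nat.log 2 (z : ℕ) = j), 1 / ((z : ℕ) : ℝ) =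
        ∑ z ∈ u, 1 / ((z : ℕ) : ℝ) :=
    sum_fiberwise_of_maps_to (fun z hz => mem_image_of_mem _ hz) _
  rw [← hfib]
  refine le_trans (sum_le_sum fun j _ => ?_) (hbs.sum_le_tsum _ fun j _ => hb0 j)
  set V := u.filter (fun z : {r : ℕ // Good n r} => Nat.log 2 (z : ℕ) = j) with hV
  have hVm : ∀ z ∈ V, 2 ^ j ≤ (z : ℕ) ∧ (z : ℕ) ≤ 2 ^ (j + 1) := by
    intro z hz
    rw [hV, mem_filter] at hz
    have h0 : (z : ℕ) ≠ 0 := by
      have := Good_pos z.2
      omega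
    refine ⟨?_, ?_⟩
    · rw [← hz.2]
      exact Nat.pow_log_le_self 2 h0
    · rw [← hz.2]
      exact (Nat.lt_pow_succ_log_self (by norm_num) _).le
  have hcard : (V.image Subtype.val).card = V.card := card_image_of_injective _ Subtype.val_injective
  have hterm : ∑ z ∈ V, 1 / ((z : ℕ) : ℝ) ≤ V.card * (1 / 2 ^ j) := by
    rw [← nsmul_eq_mul, ← sum_const]
    refine sum_le_sum fun z hz => ?_
    apply one_div_le_one_div_of_le (by positivity)
    exact_mod_cast (hVm z hz).1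
  refine hterm.trans ?_
  have hl : 0 < Real.log 2 := Real.log_pos (by norm_num)
  by_cases hj : j < j₀
  · have h1 : V.card ≤ 2 ^ (j + 1) := by
      rw [← hcard]
      have h2 : V.image Subtype.val ⊆ Icc 1 (2 ^ (j + 1)) := by
        intro z hz
        rw [mem_image] at hz
        obtain ⟨y, hy, rfl⟩ := hz
        rw [mem_Icc]
        exact ⟨Good_pos y.2, (hVm y hy).2⟩
      have h3 := card_le_card h2
      rw [Nat.card_Icc, Nat.add_sub_cancel] at h3
      exact h3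
    have h2 : (V.card : ℝ) ≤ 2 ^ (j + 1) := by exact_mod_cast h1
    have h3 : (V.card : ℝ) * (1 / 2 ^ j) ≤ 2 := by
      rw [mul_one_div, div_le_iff₀ (by positivity)]
      rw [pow_succ] at h2
      linarith
    have h5 : 0 ≤ 530 / (((j : ℝ) + 1) * Real.log 2) ^ 2 := by positivity
    simp only [hb]
    rw [if_pos hj]
    linarith
  · have hjj := h j (not_lt.1 hj)
    have hX1 : 1 ≤ 2 ^ (j + 1) := Nat.one_le_two_pow
    have hlogX : Real.log ((2 ^ (j + 1) : ℕ) : ℝ) = ((j : ℝ) + 1) * Real.log 2 := by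
      push_cast
      rw [Real.log_pow]
      push_cast
      rfl
    have h1 := card_block n (2 ^ (j + 1)) hX1 hjj
    have h2 : V.image Subtype.val ⊆ Aset n (2 ^ (j + 1)) (Lf (2 ^ (j + 1))) := by
      intro z hz
      rw [mem_image] at hz
      obtain ⟨y, hy, rfl⟩ := hz
      obtain ⟨h3, h4⟩ := hVm y hy
      unfold Aset
      rw [mem_filter, mem_Icc]
      refine ⟨⟨Good_pos y.2, h4⟩, ?_⟩
      obtain ⟨x, hx, hr, hH⟩ := y.2
      refine ⟨x, hx, hr, fun i => ?_⟩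
      refine lt_Lf (r := (y : ℕ)) (le_trans ?_ hjj) ?_ ?_ (hH i)
      · have : (0 : ℝ) ≤ n := Nat.cast_nonneg n
        linarith
      · rw [hlogX]
        have h5 : Real.log ((2 ^ j : ℕ) : ℝ) ≤ Real.log ((y : ℕ) : ℝ) := by
          apply Real.log_le_log (by positivity)
          exact_mod_cast h3
        push_cast at h5
        rw [Real.log_pow] at h5
        have h6 : (1 : ℝ) ≤ j := by
          have : 1 ≤ j := hj0.trans (not_lt.1 hj)
          exact_mod_cast this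
        nlinarith
      · apply Real.log_le_log
        · have := Good_pos y.2
          exact_mod_cast this
        · exact_mod_cast h4
    have h3 := card_le_card h2
    rw [hcard] at h3
    have h4 : (V.card : ℝ) ≤ 265 * ((2 ^ (j + 1) : ℕ) : ℝ) / Real.log ((2 ^ (j + 1) : ℕ) : ℝ) ^ 2 :=
      le_trans (by exact_mod_cast h3) h1
    rw [hlogX] at h4
    push_cast at h4
    simp only [hb]
    rw [if_neg hj, zero_add]
    have h5 := mul_le_mul_of_nonneg_right h4 (show (0 : ℝ) ≤ 1 / 2 ^ j by positivity)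
    refine h5.trans (le_of_eq ?_)
    rw [pow_succ]
    field_simp
    norm_num

theorem few_good (n : ℕ) (ε : ℝ) (hε : 0 < ε) : ∃ B : ℕ, ∀ X : ℕ,
    ({R : ℕ | 1 ≤ R ∧ R ≤ X ∧ ∃ x : Fin n → ℤ, Adm x ∧ radZ (∏ i, x i) ∣ R ∧
      (∃ j, (B : ℤ) < |x j|) ∧ ∀ j, ((|x j| : ℤ) : ℝ) ≤ Real.exp (Real.exp
        (Real.log (radZ (∏ i, x i)) / Real.log (Real.log (radZ (∏ i, x i))) ^ 3))}.ncard : ℝ) ≤
      ε * X := by
  classical
  have hs := summable_good n
  rw [summable_iff_vanishing_norm] at hs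
  obtain ⟨F, hF⟩ := hs ε hε
  refine ⟨∑ z ∈ F, ⌈hgt (z : ℕ)⌉₊, fun X => ?_⟩
  have hfin : {z : {r : ℕ // Good n r} | (z : ℕ) ≤ X}.Finite := by
    apply Set.Finite.of_finite_image (f := Subtype.val) _ Subtype.val_injective.injOn
    apply (Set.finite_Iic X).subset
    rintro _ ⟨y, hy, rfl⟩
    exact hy
  set G := hfin.toFinset \ F with hG
  have hsub : {R : ℕ | 1 ≤ R ∧ R ≤ X ∧ ∃ x : Fin n → ℤ, Adm x ∧ radZ (∏ i, x i) ∣ R ∧
      (∃ j, (((∑ z ∈ F, ⌈hgt (z : ℕ)⌉₊ : ℕ)) : ℤ) < |x j|) ∧ ∀ j, ((|x j| : ℤ) : ℝ) ≤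
        Real.exp (Real.exp (Real.log (radZ (∏ i, x i)) /
          Real.log (Real.log (radZ (∏ i, x i))) ^ 3))} ⊆
      (G.biUnion fun z => (Ioc 0 X).filter fun R => (z : ℕ) ∣ R : Finset ℕ) := by
    rintro R ⟨h1, h2, x, hx, hd, ⟨j, hlt⟩, hH⟩
    rw [mem_coe, mem_biUnion]
    refine ⟨⟨radZ (∏ i, x i), x, hx, rfl, hH⟩, ?_, ?_⟩
    · rw [hG, mem_sdiff, Set.Finite.mem_toFinset]
      refine ⟨(Nat.le_of_dvd h1 hd).trans h2, fun hmem => ?_⟩
      have h3 := single_le_sum (f := fun z : {r : ℕ // Good n r} => ⌈hgt (z : ℕ)⌉₊)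
        (fun _ _ => Nat.zero_le _) hmem
      simp only at h3
      have h4 : ((|x j| : ℤ) : ℝ) ≤ hgt (radZ (∏ i, x i)) := hH j
      have h5 : ((|x j| : ℤ) : ℝ) ≤ ((⌈hgt (radZ (∏ i, x i))⌉₊ : ℕ) : ℝ) :=
        h4.trans (Nat.le_ceil _)
      have h6 : |x j| ≤ ((⌈hgt (radZ (∏ i, x i))⌉₊ : ℕ) : ℤ) := by exact_mod_cast h5
      omega
    · rw [mem_filter, mem_Ioc]
      exact ⟨⟨h1, h2⟩, hd⟩
  have h1 := (Set.ncard_le_ncard hsub (Finset.finite_toSet _))
  rw [Set.ncard_coe_finset] at h1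
  have h2 : ((G.biUnion fun z => (Ioc 0 X).filter fun R => (z : ℕ) ∣ R).card : ℝ) ≤
      ∑ z ∈ G, (X : ℝ) / (z : ℕ) := by
    have h3 : (G.biUnion fun z => (Ioc 0 X).filter fun R => (z : ℕ) ∣ R).card ≤
        ∑ z ∈ G, X / (z : ℕ) := by
      refine card_biUnion_le.trans (sum_le_sum fun z _ => ?_)
      rw [Nat.Ioc_filter_dvd_card_eq_div]
    calc ((G.biUnion fun z => (Ioc 0 X).filter fun R => (z : ℕ) ∣ R).card : ℝ) ≤
        ((∑ z ∈ G, X / (z : ℕ) : ℕ) : ℝ) := by exact_mod_cast h3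
      _ = ∑ z ∈ G, ((X / (z : ℕ) : ℕ) : ℝ) := by push_cast; rfl
      _ ≤ _ := sum_le_sum fun z _ => Nat.cast_div_le
  have h4 : ∑ z ∈ G, (X : ℝ) / (z : ℕ) ≤ ε * X := by
    have h5 := hF G (sdiff_disjoint)
    have h6 : ∑ z ∈ G, 1 / ((z : ℕ) : ℝ) ≤ ε := (le_abs_self _).trans h5.le
    have h7 : ∑ z ∈ G, (X : ℝ) / (z : ℕ) = (∑ z ∈ G, 1 / ((z : ℕ) : ℝ)) * X := by
      rw [sum_mul]
      refine sum_congr rfl fun z _ => ?_
      ring
    rw [h7]
    exact mul_le_mul_of_nonneg_right h6 (Nat.cast_nonneg _)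
  exact (by exact_mod_cast h1 : ({R : ℕ | 1 ≤ R ∧ R ≤ X ∧ ∃ x : Fin n → ℤ, Adm x ∧
      radZ (∏ i, x i) ∣ R ∧ (∃ j, (((∑ z ∈ F, ⌈hgt (z : ℕ)⌉₊ : ℕ)) : ℤ) < |x j|) ∧
      ∀ j, ((|x j| : ℤ) : ℝ) ≤ Real.exp (Real.exp (Real.log (radZ (∏ i, x i)) /
          Real.log (Real.log (radZ (∏ i, x i))) ^ 3))}.ncard : ℝ) ≤
      ((G.biUnion fun z => (Ioc 0 X).filter fun R => (z : ℕ) ∣ R).card : ℝ)).trans (h2.trans h4)

end Pool.MP_a95293_nt.AT
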